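import Pool.Agent.H54.CircSpor

set_option autoImplicit false

namespace Pool.Agent.Results.MP_1f00fa_co.Characterisation

open Pool.Agent.H54.Mono

/-- For `n ≥ 11` there is a circulant graph of order `n` with monophonic position number `2` and
diameter `2` if and only if `n ≠ 15`. -/
theorem result : ∀ n : ℕ, 11 ≤ n →
    ((∃ C : Set (ZMod n), mp (SimpleGraph.circulantGraph C) = 2 ∧
      (SimpleGraph.circulantGraph C).diam = 2) ↔ n ≠ 15) := by
  intro n hn
  constructor
  · rintro ⟨C, h1, h2⟩ h15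
    subst h15
    exact none15 C h1 h2
  · intro h15
    have hcases : (∃ m, 3 ≤ m ∧ n = 3 * m - 1) ∨ (∃ a, 4 ≤ a ∧ n = 3 * a + 1) ∨
        (∃ b, 7 ≤ b ∧ n = 3 * b) ∨ n = 12 ∨ n = 18 := by
      have : n % 3 = 0 ∨ n % 3 = 1 ∨ n % 3 = 2 := by omega
      rcases this with h | h | h
      · by_cases h7 : 21 ≤ n
        · exact Or.inr (Or.inr (Or.inl ⟨n / 3, by omega, by omega⟩))
        · right; right; right; omega
      · exact Or.inr (Or.inl ⟨n / 3, by omega, by omega⟩)
      · exact Or.inl ⟨(n + 1) / 3, by omega, by omega⟩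
    rcases hcases with ⟨m, hm, rfl⟩ | ⟨a, ha, rfl⟩ | ⟨b, hb, rfl⟩ | rfl | rfl
    · have : NeZero (3 * m - 1) := ⟨by omega⟩
      exact ⟨_, fam1 m hm⟩
    · have : NeZero (3 * a + 1) := ⟨by omega⟩
      exact ⟨_, fam2 a ha⟩
    · have : NeZero (3 * b) := ⟨by omega⟩
      exact ⟨_, fam3 b hb⟩
    · exact ⟨_, fam12⟩
    · exact ⟨_, fam18⟩

end Pool.Agent.Results.MP_1f00fa_co.Characterisation
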